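import Mathlib
import Pool.Agent.H925R2.Quad
import Pool.Agent.H925R2.AV
import Pool.Agent.H925R2.Rational
import Pool.Agent.H371R3.Tate.Three

/-!
# Doubly transitive Galois action on the pairs `{α, q / α}`: no relations unless an imaginary
quadratic subfield is responsible
-/

namespace Pool.Agent.H371R3.Tate

open Polynomial Pool.Agent.H925R2

section quad

variable {f : ℚ[X]} (hf : Irreducible f) {q : ℚ} (hq : 0 < q)
  (hweil : ∀ z : ℂ, aeval z f = 0 → ‖z‖ ^ 2 = (q : ℝ))

/-- A nonzero antisymmetric sign type vector `v` on the roots comes from an imaginary quadratic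
subfield: there is a polynomial `P` with `P ^ 2 = - n` modulo `f`, such that the sign of `v`
depends on the sign of the value of `P`. -/
theorem exists_quad (v : f.rootSet f.SplittingField → ℤ)
    (hv : ∀ x, v (rinv hf hq hweil x) = - v x) (hv0 : ∃ x, v x ≠ 0) (hs : SignType f.Gal v) :
    ∃ (P : ℚ[X]) (n : ℕ) (x₀ : f.rootSet f.SplittingField), 0 < n ∧ f ∣ P ^ 2 + C (n : ℚ) ∧
      v x₀ ≠ 0 ∧ ∀ x : f.rootSet f.SplittingField,
        (aeval x.1 P = aeval x₀.1 P ∧ v x = v x₀) ∨ (aeval x.1 P = - aeval x₀.1 P ∧ v x = - v x₀) := by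
  classical
  have _ : MulAction.IsPretransitive f.Gal (f.rootSet f.SplittingField) := gal_pretransitive hf
  have hfull : ∀ x, v x ≠ 0 := by
    obtain ⟨x₀, hx₀⟩ := hv0
    intro x
    obtain ⟨g, hg⟩ := MulAction.exists_smul_eq f.Gal x x₀
    intro h
    rcases hs g with h1 | h1
    · apply hx₀; rw [← hg, h1 x, h]
    · apply hx₀; rw [← hg, h1 x, h]; rfl
  obtain ⟨i, hi⟩ := exists_powersum_ne (fun x : f.rootSet f.SplittingField => x.1)
    Subtype.val_injective (fun x => ((v x : ℤ) : f.SplittingField)) (by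
      obtain ⟨x, hx⟩ := hv0
      exact ⟨x, by exact_mod_cast hx⟩)
  set z := ∑ x : f.rootSet f.SplittingField, ((v x : ℤ) : f.SplittingField) * x.1 ^ i with hz
  -- action of the Galois group
  have hact : ∀ g : f.Gal, g z = ∑ y : f.rootSet f.SplittingField,
      ((v (g⁻¹ • y) : ℤ) : f.SplittingField) * y.1 ^ i := by
    intro g
    rw [hz, map_sum]
    refine Fintype.sum_equiv (MulAction.toPerm g) _ _ fun x => ?_
    rw [MulAction.toPerm_apply, inv_smul_smul, map_mul, map_pow, map_intCast, smul_coe]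
  have hpm : ∀ g : f.Gal, (g z = z ∧ ∀ x, v (g⁻¹ • x) = v x) ∨
      (g z = -z ∧ ∀ x, v (g⁻¹ • x) = - v x) := by
    intro g
    rcases hs g⁻¹ with h | h
    · left
      refine ⟨?_, h⟩
      rw [hact g, hz]
      exact Finset.sum_congr rfl fun x _ => by rw [h]
    · right
      refine ⟨?_, h⟩
      rw [hact g, hz, ← Finset.sum_neg_distrib]
      exact Finset.sum_congr rfl fun x _ => by rw [h]; push_cast; ring
  obtain ⟨x₀, _⟩ := hv0
  obtain ⟨P, hP⟩ := exists_aeval_of_fixed hf.separable x₀.1 z (by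
    intro g hg
    rcases hpm g with h | h
    · exact h.1
    · exfalso
      have h1 : g • x₀ = x₀ := Subtype.ext hg
      have h2 := h.2 x₀
      have h3 : g⁻¹ • x₀ = x₀ := by rw [inv_smul_eq_iff]; exact h1.symm
      rw [h3] at h2
      exact hfull x₀ (by omega))
  obtain ⟨b, hb⟩ := exists_base_of_fixed hf.separable (z ^ 2) (by
    intro g
    rcases hpm g with h | h <;> rw [map_pow, h.1]
    ring)
  -- positivity
  let τ : f.SplittingField →ₐ[ℚ] ℂ := IsAlgClosed.lift
  have hconj : ∀ x : f.rootSet f.SplittingField,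
      starRingEnd ℂ (τ x.1) = τ (rinv hf hq hweil x).1 := by
    intro x
    have hx := (mem_rootSet.1 x.2).2
    have hx0 : τ x.1 ≠ 0 := fun h => root_ne_zero hq hweil x.1 hx ((map_eq_zero τ).1 h)
    have h1 : aeval (τ x.1) f = 0 := by rw [aeval_algHom_apply, hx, map_zero]
    rw [rinv_coe, map_div₀, map_ratCast, eq_div_iff hx0, mul_comm, Complex.mul_conj,
      Complex.normSq_eq_norm_sq, hweil _ h1]
    simp
  have hzc : starRingEnd ℂ (τ z) = - τ z := by
    rw [hz, map_sum, map_sum, ← Finset.sum_neg_distrib]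
    refine Finset.sum_nbij' (rinv hf hq hweil) (rinv hf hq hweil) (fun _ _ => Finset.mem_univ _)
        (fun _ _ => Finset.mem_univ _) (fun x _ => rinv_rinv hf hq hweil x)
        (fun x _ => rinv_rinv hf hq hweil x) (fun x _ => ?_)
    rw [map_mul, map_mul, map_mul, map_pow, map_pow, map_pow, map_intCast, map_intCast,
      map_intCast, hconj, hv]
    push_cast
    ring
  have hτz : τ z ≠ 0 := fun h => hi ((map_eq_zero τ).1 h)
  have hbneg : b < 0 := by
    have h1 : (τ z) ^ 2 = ((b : ℚ) : ℂ) := by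
      rw [← map_pow, ← hb]
      simp
    have h2 : (τ z) * starRingEnd ℂ (τ z) = ((‖τ z‖ ^ 2 : ℝ) : ℂ) := by
      rw [Complex.mul_conj, Complex.normSq_eq_norm_sq]
    rw [hzc] at h2
    have h3 : (((b : ℝ)) : ℂ) = ((-(‖τ z‖ ^ 2) : ℝ) : ℂ) := by
      push_cast
      have h4 : (τ z) ^ 2 = - ((‖τ z‖ : ℂ) ^ 2) := by
        have : (τ z) ^ 2 = - (τ z * -τ z) := by ring
        rw [this, h2]; push_cast; ring
      rw [← h4, h1]
    have h5 : (b : ℝ) = -(‖τ z‖ ^ 2) := by exact_mod_cast h3
    have h6 : 0 < ‖τ z‖ ^ 2 := pow_pos (norm_pos_iff.2 hτz) 2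
    have h7 : (b : ℝ) < 0 := by rw [h5]; linarith
    exact_mod_cast h7
  have hP' : aeval x₀.1 P = z := hP
  have hb' : z ^ 2 = ((b : ℚ) : f.SplittingField) := by
    rw [← hb]
    simp
  refine ⟨C (b.den : ℚ) * P, b.num.natAbs * b.den, x₀, ?_, ?_, hfull x₀, ?_⟩
  · have h1 : b.num ≠ 0 := Rat.num_ne_zero.2 hbneg.ne
    exact Nat.mul_pos (Int.natAbs_pos.2 h1) b.den_pos
  · have h0 : aeval x₀.1 ((C (b.den : ℚ) * P) ^ 2 + C ((b.num.natAbs * b.den : ℕ) : ℚ)) = 0 := by
      rw [map_add, map_pow, map_mul, aeval_C, aeval_C, hP', mul_pow, hb', eq_ratCast, eq_ratCast]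
      have h2 : ((b.den : ℚ)) ^ 2 * b = -((b.num.natAbs * b.den : ℕ) : ℚ) := by
        have h3 : ((b.num.natAbs : ℕ) : ℚ) = -(b.num : ℚ) := by
          have h4 : b.num < 0 := Rat.num_neg.2 hbneg
          rw [Nat.cast_natAbs, abs_of_neg h4]
          push_cast
          rfl
        push_cast
        rw [h3]
        have h6 : (b.den : ℚ) * b = b.num := by
          rw [mul_comm]; exact Rat.mul_den_eq_num b
        calc (b.den : ℚ) ^ 2 * b = b.den * (b.den * b) := by ring
          _ = _ := by rw [h6]; ring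
      have h3 := congrArg (Rat.cast (K := f.SplittingField)) h2
      push_cast at h3 ⊢
      rw [h3]
      ring
    have h1 := minpoly.eq_of_irreducible hf (mem_rootSet.mp x₀.2).2
    have h2 : minpoly ℚ x₀.1 ∣ _ := minpoly.dvd ℚ x₀.1 h0
    rw [← h1] at h2
    exact (dvd_mul_right f _).trans h2
  · intro x
    obtain ⟨g, hg⟩ := MulAction.exists_smul_eq f.Gal x₀ x
    have hgx : g x₀.1 = x.1 := by rw [← hg]; rfl
    have h1 : ∀ Q : ℚ[X], aeval x.1 Q = g (aeval x₀.1 Q) := by
      intro Q
      rw [← hgx]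
      exact aeval_algHom_apply (AlgEquiv.toAlgHom (g : f.SplittingField ≃ₐ[ℚ] f.SplittingField)) x₀.1 Q
    have h2 : g ((b.den : ℚ) : f.SplittingField) = ((b.den : ℚ) : f.SplittingField) := map_ratCast g _
    rw [h1, map_mul, map_mul, aeval_C, eq_ratCast, h2, hP']
    rcases hpm g with h | h
    · left
      refine ⟨by rw [h.1], ?_⟩
      rw [← h.2 x, ← hg, inv_smul_smul]
    · right
      refine ⟨by rw [h.1]; ring, ?_⟩
      have h3 := h.2 x
      rw [← hg, inv_smul_smul] at h3
      rw [← hg]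
      omega

end quad

section main

variable {f : ℚ[X]} (hf : Irreducible f) {q : ℚ} (hq : 0 < q)
  (hweil : ∀ z : ℂ, aeval z f = 0 → ‖z‖ ^ 2 = (q : ℝ))

open Classical in
/-- The condition on imaginary quadratic subfields: over each root of `-n`, the deviations are not
all equal and their sum is not zero. -/
def QuadCond (p : ℕ) [Fact p.Prime] (f : ℚ[X]) (q : ℚ) : Prop :=
  ∀ (P : ℚ[X]) (n : ℕ), 0 < n → f ∣ P ^ 2 + C (n : ℚ) → ∀ t : PadicAlgCl p, t ^ 2 = -(n : PadicAlgCl p) →
    (∃ α β : PadicAlgCl p, aeval α f = 0 ∧ aeval β f = 0 ∧ aeval α P = t ∧ aeval β P = t ∧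
      dev p q α ≠ dev p q β) ∧
    ∑ α : f.rootSet (PadicAlgCl p) with aeval α.1 P = t, dev p q α.1 ≠ 0

/-- Triply transitive on the numbers `x + q / x`, `x` a root of `f`. -/
def TriplyTransitive (f : ℚ[X]) (q : ℚ) : Prop :=
  ∀ x y z x' y' z' : f.SplittingField, aeval x f = 0 → aeval y f = 0 → aeval z f = 0 →
    aeval x' f = 0 → aeval y' f = 0 → aeval z' f = 0 →
    x + (q : f.SplittingField) / x ≠ y + (q : f.SplittingField) / y →
    y + (q : f.SplittingField) / y ≠ z + (q : f.SplittingField) / z →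
    x + (q : f.SplittingField) / x ≠ z + (q : f.SplittingField) / z →
    x' + (q : f.SplittingField) / x' ≠ y' + (q : f.SplittingField) / y' →
    y' + (q : f.SplittingField) / y' ≠ z' + (q : f.SplittingField) / z' →
    x' + (q : f.SplittingField) / x' ≠ z' + (q : f.SplittingField) / z' →
    ∃ σ : f.Gal, σ (x + (q : f.SplittingField) / x) = x' + (q : f.SplittingField) / x' ∧
      σ (y + (q : f.SplittingField) / y) = y' + (q : f.SplittingField) / y' ∧
      σ (z + (q : f.SplittingField) / z) = z' + (q : f.SplittingField) / z'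

theorem triples_of_triplyTransitive (htt : TriplyTransitive f q)
    (x y z x' y' z' : f.rootSet f.SplittingField)
    (h1 : Ineq (rinv hf hq hweil) x y) (h2 : Ineq (rinv hf hq hweil) y z)
    (h3 : Ineq (rinv hf hq hweil) x z) (h4 : Ineq (rinv hf hq hweil) x' y')
    (h5 : Ineq (rinv hf hq hweil) y' z') (h6 : Ineq (rinv hf hq hweil) x' z') :
    ∃ g : f.Gal, (g • x = x' ∨ g • x = rinv hf hq hweil x') ∧
      (g • y = y' ∨ g • y = rinv hf hq hweil y') ∧
      (g • z = z' ∨ g • z = rinv hf hq hweil z') := by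
  have hr : ∀ z : f.rootSet f.SplittingField, aeval z.1 f = 0 := fun z => (mem_rootSet.1 z.2).2
  have hz : ∀ z : f.rootSet f.SplittingField, z.1 ≠ 0 := fun z => root_ne_zero hq hweil z.1 (hr z)
  have hne : ∀ z w : f.rootSet f.SplittingField, Ineq (rinv hf hq hweil) z w →
      z.1 + (q : f.SplittingField) / z.1 ≠ w.1 + (q : f.SplittingField) / w.1 := by
    intro z w hw h
    rcases (trace_eq_iff (hz z) (hz w)).1 h with h5 | h5
    · exact hw.1 (Subtype.ext h5)
    · exact hw.2 (Subtype.ext (by rw [h5, rinv_coe]))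
  obtain ⟨σ, hσ1, hσ2, hσ3⟩ := htt x.1 y.1 z.1 x'.1 y'.1 z'.1 (hr x) (hr y) (hr z) (hr x') (hr y')
    (hr z') (hne x y h1) (hne y z h2) (hne x z h3) (hne x' y' h4) (hne y' z' h5) (hne x' z' h6)
  have fin : ∀ z z' : f.rootSet f.SplittingField,
      σ (z.1 + (q : f.SplittingField) / z.1) = z'.1 + (q : f.SplittingField) / z'.1 →
      (σ • z = z' ∨ σ • z = rinv hf hq hweil z') := by
    intro z z' h
    rw [map_add, map_div₀, map_ratCast, eq_comm] at h
    have h5 : σ z.1 ≠ 0 := by
      have := hz (σ • z)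
      rwa [smul_coe] at this
    rcases (trace_eq_iff (hz z') h5).1 h with h6 | h6
    · left; exact Subtype.ext h6
    · right; exact Subtype.ext (by rw [rinv_coe, smul_coe, h6])
  exact ⟨σ, fin x x' hσ1, fin y y' hσ2, fin z z' hσ3⟩

theorem norel_of_doublyTransitive (p : ℕ) [Fact p.Prime]
    (e : f.SplittingField →ₐ[ℚ] PadicAlgCl p)
    (hdt : DoublyTransitive f q) (g : ℕ) (hdeg : f.natDegree = 2 * g)
    (κ : ℝ) (hκ : κ ≠ 0) (U : PadicAlgCl p → ℤ)
    (hU : ∀ α : PadicAlgCl p, aeval α f = 0 → dev p q α = κ * U α)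
    (hns : ∃ α : PadicAlgCl p, aeval α f = 0 ∧ dev p q α ≠ 0)
    (hg : Odd g ∨ g = 2 ∨ (g - 1).Prime ∨ (3 ≤ g ∧ TriplyTransitive f q) ∨
      (∀ Φ : Finset (f.rootSet f.SplittingField), IsHalf (rinv hf hq hweil) Φ →
        ¬ (2 : ℤ) ∣ ∑ x ∈ Φ, U (e x.1)))
    (hquad : QuadCond p f q)
    (c : f.rootSet f.SplittingField → ℤ) (hc : ∀ x, c (rinv hf hq hweil x) = - c x)
    (hrel : ∀ g : f.Gal, ∑ x : f.rootSet f.SplittingField, (c x : ℝ) *
        dev p q (e (g • x : f.rootSet f.SplittingField).1) = 0) : ∀ x, c x = 0 := by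
  classical
  have _ : MulAction.IsPretransitive f.Gal (f.rootSet f.SplittingField) := gal_pretransitive hf
  have hroot : ∀ x : f.rootSet f.SplittingField, aeval (e x.1) f = 0 := by
    intro x
    rw [aeval_algHom_apply, (mem_rootSet.1 x.2).2, map_zero]
  by_contra hcon
  push Not at hcon
  set w : f.rootSet f.SplittingField → ℤ := fun x => U (e x.1) with hw
  have hdev : ∀ x : f.rootSet f.SplittingField, dev p q (e x.1) = κ * w x := fun x => hU _ (hroot x)
  have hwanti : ∀ x, w (rinv hf hq hweil x) = - w x := by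
    intro x
    have h1 := dev_rinv hf hq hweil p e x
    rw [hdev, hdev, ← mul_neg] at h1
    have h2 := mul_left_cancel₀ hκ h1
    exact_mod_cast h2
  have hw0 : ∃ x, w x ≠ 0 := by
    obtain ⟨α, hα, hd⟩ := hns
    obtain ⟨y, rfl⟩ := exists_root_eq hf e α hα
    refine ⟨y, fun h => hd ?_⟩
    rw [hdev y, h]
    simp
  have hne : ∀ x, rinv hf hq hweil x ≠ x := rinv_ne_of_dev hf hq hweil p e hns
  have hrel' : ∀ g : f.Gal, ∑ x, c x * w (g • x) = 0 := by
    intro g
    have h1 := hrel g
    have h2 : ∀ x : f.rootSet f.SplittingField, (c x : ℝ) *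
        dev p q (e (g • x : f.rootSet f.SplittingField).1) = κ * ((c x * w (g • x) : ℤ) : ℝ) := by
      intro x
      rw [hdev]
      push_cast
      ring
    rw [Finset.sum_congr rfl (fun x _ => h2 x), ← Finset.mul_sum] at h1
    have h3 := (mul_eq_zero.1 h1).resolve_left hκ
    exact_mod_cast h3
  -- the set of roots with a given value of `P`
  have hsign : SignType f.Gal c ∨ SignType f.Gal w := by
    have hpairs := pairs_of_doublyTransitive hf hq hweil hdt
    have hcard : Fintype.card (f.rootSet f.SplittingField) = 2 * g := by rw [card_roots hf, hdeg]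
    rcases hg with h | h | h | h | h
    · exact signType_of_rel (rinv_rinv hf hq hweil) hne (smul_rinv hf hq hweil)
        (fun x y x' y' h1 h2 h3 h4 => hpairs x y x' y' h1 h2 h3 h4) g hcard (Or.inl h) c w hc hwanti
        hcon hw0 hrel'
    · exact signType_of_rel (rinv_rinv hf hq hweil) hne (smul_rinv hf hq hweil)
        (fun x y x' y' h1 h2 h3 h4 => hpairs x y x' y' h1 h2 h3 h4) g hcard (Or.inr (Or.inl h)) c w
        hc hwanti hcon hw0 hrel'
    · exact signType_of_rel (rinv_rinv hf hq hweil) hne (smul_rinv hf hq hweil)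
        (fun x y x' y' h1 h2 h3 h4 => hpairs x y x' y' h1 h2 h3 h4) g hcard (Or.inr (Or.inr h)) c w
        hc hwanti hcon hw0 hrel'
    · exact signType_of_triple (rinv_rinv hf hq hweil) hne (smul_rinv hf hq hweil)
        (fun x y x' y' h1 h2 h3 h4 => hpairs x y x' y' h1 h2 h3 h4)
        (fun x y z x' y' z' h1 h2 h3 h4 h5 h6 => triples_of_triplyTransitive hf hq hweil h.2
          x y z x' y' z' h1 h2 h3 h4 h5 h6) g hcard h.1 c w hc hwanti hcon hw0 hrel'
    · exact Or.inr (signType_of_parity (rinv_rinv hf hq hweil) hne (smul_rinv hf hq hweil)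
        (fun x y x' y' h1 h2 h3 h4 => hpairs x y x' y' h1 h2 h3 h4) g hcard c w hc hwanti
        hcon h hrel')
  rcases hsign with hs | hs
  · obtain ⟨P, n, x₀, hn, hP, hx₀, hval⟩ := exists_quad hf hq hweil c hc hcon hs
    have hP0 : (aeval x₀.1 P) ^ 2 = -(n : f.SplittingField) := by
      obtain ⟨Q, hQ⟩ := hP
      have h1 := congrArg (aeval x₀.1) hQ
      rw [map_mul, (mem_rootSet.1 x₀.2).2, zero_mul, map_add, map_pow, aeval_C] at h1
      simp only [map_natCast] at h1
      linear_combination h1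
    have hPne : aeval x₀.1 P ≠ 0 := by
      intro h
      rw [h] at hP0
      have : (n : f.SplittingField) = 0 := by
        have h2 : (0 : f.SplittingField) ^ 2 = 0 := by norm_num
        rw [h2] at hP0
        linear_combination hP0
      exact hn.ne' (by exact_mod_cast this)
    have h2 := (hquad P n hn hP (e (aeval x₀.1 P)) (by rw [← map_pow, hP0]; simp)).2
    apply h2
    -- transfer the sum to the splitting field
    have h3 : ∑ α : f.rootSet (PadicAlgCl p) with aeval α.1 P = e (aeval x₀.1 P), dev p q α.1 =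
        ∑ x : f.rootSet f.SplittingField with aeval x.1 P = aeval x₀.1 P, dev p q (e x.1) := by
      symm
      refine Finset.sum_bij (fun x _ => (⟨e x.1, mem_rootSet.2 ⟨hf.ne_zero, hroot x⟩⟩ :
        f.rootSet (PadicAlgCl p))) ?_ ?_ ?_ ?_
      · intro x hx
        rw [Finset.mem_filter] at hx ⊢
        refine ⟨Finset.mem_univ _, ?_⟩
        change aeval (e x.1) P = _
        rw [aeval_algHom_apply, hx.2]
      · intro x _ y _ h
        exact Subtype.ext (e.injective (congrArg Subtype.val h))
      · intro α hα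
        rw [Finset.mem_filter] at hα
        obtain ⟨x, hx⟩ := exists_root_eq hf e α.1 (mem_rootSet.1 α.2).2
        refine ⟨x, ?_, Subtype.ext hx⟩
        rw [Finset.mem_filter]
        refine ⟨Finset.mem_univ _, ?_⟩
        have h11 : e (aeval x.1 P) = e (aeval x₀.1 P) := by
          rw [← aeval_algHom_apply, hx, hα.2]
        exact e.injective h11
      · intro x _
        rfl
    rw [h3]
    set Φ : Finset (f.rootSet f.SplittingField) :=
      Finset.univ.filter (fun x => aeval x.1 P = aeval x₀.1 P) with hΦdef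
    have hpn : aeval x₀.1 P ≠ - aeval x₀.1 P := by
      intro h
      apply hPne
      have h4 : (2 : f.SplittingField) * aeval x₀.1 P = 0 := by linear_combination h
      exact (mul_eq_zero.1 h4).resolve_left two_ne_zero
    have hmem : ∀ x, x ∈ Φ ↔ c x = c x₀ := by
      intro x
      rw [hΦdef, Finset.mem_filter]
      constructor
      · rintro ⟨_, h⟩
        rcases hval x with h4 | h4
        · exact h4.2
        · exact absurd (h.symm.trans h4.1) hpn
      · intro h
        refine ⟨Finset.mem_univ _, ?_⟩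
        rcases hval x with h4 | h4
        · exact h4.1
        · exfalso
          have := h4.2
          rw [h] at this
          exact hx₀ (by omega)
    have hhalf : IsHalf (rinv hf hq hweil) Φ := by
      intro x
      rw [hmem, hmem, hc]
      rcases hval x with h4 | h4
      · rw [h4.2]
        constructor
        · intro _ h; exact hx₀ (by omega)
        · intro _; rfl
      · rw [h4.2]
        constructor
        · intro h _; exact hx₀ (by omega)
        · intro h; exact absurd (by ring) h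
    have h5 := hhalf.sum_symm (rinv_rinv hf hq hweil) (fun x => c x * w x) (fun x => by
      simp only [hc, hwanti]; ring)
    have h6 := hrel' 1
    simp only [one_smul] at h6
    rw [h6] at h5
    have h7 : ∑ x ∈ Φ, c x * w x = c x₀ * ∑ x ∈ Φ, w x := by
      rw [Finset.mul_sum]
      exact Finset.sum_congr rfl fun x hx => by rw [(hmem x).1 hx]
    have h8 : c x₀ * ∑ x ∈ Φ, w x = 0 := by omega
    have h9 := (mul_eq_zero.1 h8).resolve_left hx₀
    rw [Finset.sum_congr rfl fun x _ => hdev x, ← Finset.mul_sum]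
    have h10 : ∑ x ∈ Φ, ((w x : ℤ) : ℝ) = 0 := by exact_mod_cast h9
    rw [h10, mul_zero]
  · obtain ⟨P, n, x₀, hn, hP, hx₀, hval⟩ := exists_quad hf hq hweil w hwanti hw0 hs
    have hP0 : (aeval x₀.1 P) ^ 2 = -(n : f.SplittingField) := by
      obtain ⟨Q, hQ⟩ := hP
      have h1 := congrArg (aeval x₀.1) hQ
      rw [map_mul, (mem_rootSet.1 x₀.2).2, zero_mul, map_add, map_pow, aeval_C] at h1
      simp only [map_natCast] at h1
      linear_combination h1
    have hPne : aeval x₀.1 P ≠ 0 := by
      intro h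
      rw [h] at hP0
      have : (n : f.SplittingField) = 0 := by
        have h2 : (0 : f.SplittingField) ^ 2 = 0 := by norm_num
        rw [h2] at hP0
        linear_combination hP0
      exact hn.ne' (by exact_mod_cast this)
    have hpn : aeval x₀.1 P ≠ - aeval x₀.1 P := by
      intro h
      apply hPne
      have h4 : (2 : f.SplittingField) * aeval x₀.1 P = 0 := by linear_combination h
      exact (mul_eq_zero.1 h4).resolve_left two_ne_zero
    obtain ⟨α, β, hα, hβ, hαt, hβt, hab⟩ :=
      (hquad P n hn hP (e (aeval x₀.1 P)) (by rw [← map_pow, hP0]; simp)).1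
    apply hab
    have key : ∀ γ : PadicAlgCl p, aeval γ f = 0 → aeval γ P = e (aeval x₀.1 P) →
        dev p q γ = κ * w x₀ := by
      intro γ hγ hγt
      obtain ⟨x, rfl⟩ := exists_root_eq hf e γ hγ
      rw [aeval_algHom_apply] at hγt
      have h4 := e.injective hγt
      rcases hval x with h5 | h5
      · rw [hdev, h5.2]
      · exact absurd (h4.symm.trans h5.1) hpn
    rw [key α hα hαt, key β hβ hβt]

end main

end Pool.Agent.H371R3.Tate
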